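import Pool.Agent.Work.MP_86fe4b_lc.Simulation

/-!
# The intended model
-/

open Turing

namespace Pool.Agent.Work.MP_86fe4b_lc

universe u v

/-- Points of the intended model: two end points, left stacks and right stacks. -/
inductive Pt (Γ : Type) [Inhabited Γ] : Type u
  | s | e
  | l (L : ListBlank Γ)
  | r (R : ListBlank Γ)

section
variable {Γ Λ : Type} [Inhabited Γ] [Inhabited Λ] (e : Vr Γ Λ → ℕ) (M : TM0.Machine Γ Λ)

/-- The machine halts from the given configuration. -/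
def Halts (q : Λ) (L R : ListBlank Γ) : Prop :=
  (StateTransition.eval (TM0.step M) ⟨q, Tape.mk' L R⟩).Dom

theorem halts_of_step_none {q : Λ} {L R : ListBlank Γ} (h : M q R.head = none) :
    Halts M q L R := by
  have h1 : TM0.step M ⟨q, Tape.mk' L R⟩ = none := by
    rw [TM0.step, Tape.mk'_head, h]; rfl
  have h2 : (⟨q, Tape.mk' L R⟩ : TM0.Cfg Γ Λ) ∈ StateTransition.eval (TM0.step M) ⟨q, Tape.mk' L R⟩ :=
    StateTransition.mem_eval.2 ⟨Relation.ReflTransGen.refl, h1⟩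
  exact Part.dom_iff_mem.2 ⟨_, h2⟩

theorem halts_of_step {q q' : Λ} {L R L' R' : ListBlank Γ}
    (h : TM0.step M ⟨q, Tape.mk' L R⟩ = some ⟨q', Tape.mk' L' R'⟩) (hh : Halts M q' L' R') :
    Halts M q L R := by
  unfold Halts at *
  rw [StateTransition.reaches_eval (Relation.ReflTransGen.single h)]
  exact hh

/-- Interpretation of the variables in the intended model. -/
def interp : Vr Γ Λ → Set (Pt.{u} Γ × Pt.{u} Γ)
  | .z => ∅
  | .lm => {p | p = (Pt.s, Pt.l (ListBlank.mk []))}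
  | .rm => {p | p = (Pt.r (ListBlank.mk []), Pt.e)}
  | .mid => {p | ∃ L R, p = (Pt.l L, Pt.r R)}
  | .L a => {p | ∃ L, p = (Pt.l L, Pt.l (L.cons a))}
  | .R a => {p | ∃ R, p = (Pt.r (R.cons a), Pt.r R)}
  | .Q q => {p | ∃ L R, p = (Pt.l L, Pt.r R) ∧ Halts M q L R}

/-- The assignment of the intended model. -/
def asg (n : ℕ) : Set (Pt.{u} Γ × Pt.{u} Γ) := {p | ∃ x : Vr Γ Λ, e x = n ∧ p ∈ interp M x}

variable {e}

theorem mem_asg (he : Function.Injective e) {x : Vr Γ Λ} {p : Pt.{u} Γ × Pt.{u} Γ} :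
    p ∈ val Set.univ (asg e M) (vt e x) ↔ p ∈ interp M x := by
  constructor
  · rintro ⟨y, hy, hp⟩
    rw [he hy] at hp; exact hp
  · intro h; exact ⟨x, rfl, h⟩

theorem asg_zero (he : Function.Injective e) (h0 : e .z = 0) : asg.{u} e M 0 = ∅ := by
  ext p
  simp only [Set.mem_empty_iff_false, iff_false]
  rintro ⟨y, hy, hp⟩
  rw [← h0] at hy
  rw [he hy] at hp
  exact hp

theorem model_ax [Finite Γ] [Finite Λ] (he : Function.Injective e) :
    ∀ x ∈ axList e M, val (Set.univ : Set (Pt.{u} Γ × Pt.{u} Γ)) (asg e M) x.1 ⊆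
      val Set.univ (asg e M) x.2 := by
  intro x hx
  rcases (mem_axList e M).1 hx with ⟨⟨q, a, b⟩, rfl⟩ | ⟨a, rfl⟩ | ⟨a, rfl⟩ | rfl | rfl
  · unfold axOf
    rcases hM : M q a with _ | ⟨q', d | c⟩
    · simp only
      rintro ⟨x, z⟩ ⟨y, h1, h2⟩
      obtain ⟨L, R, k1⟩ := (mem_asg M he).1 h1
      obtain ⟨R', k2⟩ := (mem_asg M he).1 h2
      clear h1 h2
      simp only [Prod.mk.injEq] at k1 k2
      obtain ⟨rfl, rfl⟩ := k1
      obtain ⟨h3, rfl⟩ := k2
      simp only [Pt.r.injEq] at h3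
      subst h3
      refine ⟨Pt.r (R'.cons a), (mem_asg M he).2 ⟨L, R'.cons a, rfl, ?_⟩, (mem_asg M he).2 ⟨R', rfl⟩⟩
      apply halts_of_step_none
      rw [ListBlank.head_cons]; exact hM
    · cases d with
      | left =>
        simp only
        rintro ⟨x, z⟩ ⟨y, h1, y1, h2, h3⟩
        obtain ⟨L, R, k1, hh⟩ := (mem_asg M he).1 h1
        obtain ⟨R', k2⟩ := (mem_asg M he).1 h2
        obtain ⟨R'', k3⟩ := (mem_asg M he).1 h3
        clear h1 h2 h3
        simp only [Prod.mk.injEq] at k1 k2 k3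
        obtain ⟨rfl, rfl⟩ := k1
        obtain ⟨h4, rfl⟩ := k2
        obtain ⟨h5, rfl⟩ := k3
        simp only [Pt.r.injEq] at h4 h5
        subst h5
        subst h4
        refine ⟨Pt.l (L.cons b), (mem_asg M he).2 ⟨L, rfl⟩, Pt.r (R''.cons a),
          (mem_asg M he).2 ⟨L.cons b, R''.cons a, rfl, ?_⟩, (mem_asg M he).2 ⟨R'', rfl⟩⟩
        refine halts_of_step M ?_ hh
        rw [TM0.step, Tape.mk'_head, ListBlank.head_cons, hM, Option.map_some]
        simp only [Tape.move_left_mk', ListBlank.head_cons, ListBlank.tail_cons]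
      | right =>
        simp only
        rintro ⟨x, z⟩ ⟨y, h1, h2⟩
        obtain ⟨L, k1⟩ := (mem_asg M he).1 h1
        obtain ⟨L', R, k2, hh⟩ := (mem_asg M he).1 h2
        clear h1 h2
        simp only [Prod.mk.injEq] at k1 k2
        obtain ⟨rfl, rfl⟩ := k1
        obtain ⟨h3, rfl⟩ := k2
        simp only [Pt.l.injEq] at h3
        subst h3
        refine ⟨Pt.r (R.cons a), (mem_asg M he).2 ⟨L, R.cons a, rfl, ?_⟩,
          (mem_asg M he).2 ⟨R, rfl⟩⟩
        refine halts_of_step M ?_ hh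
        rw [TM0.step, Tape.mk'_head, ListBlank.head_cons, hM, Option.map_some]
        simp only [Tape.move_right_mk', ListBlank.head_cons, ListBlank.tail_cons]
    · simp only
      rintro ⟨x, z⟩ ⟨y, h1, h2⟩
      obtain ⟨L, R, k1, hh⟩ := (mem_asg M he).1 h1
      obtain ⟨R', k2⟩ := (mem_asg M he).1 h2
      clear h1 h2
      simp only [Prod.mk.injEq] at k1 k2
      obtain ⟨rfl, rfl⟩ := k1
      obtain ⟨h3, rfl⟩ := k2
      simp only [Pt.r.injEq] at h3
      subst h3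
      refine ⟨Pt.r (R'.cons a), (mem_asg M he).2 ⟨L, R'.cons a, rfl, ?_⟩,
        (mem_asg M he).2 ⟨R', rfl⟩⟩
      refine halts_of_step M ?_ hh
      rw [TM0.step, Tape.mk'_head, ListBlank.head_cons, hM, Option.map_some]
      simp only [Tape.write_mk', ListBlank.tail_cons]
  · rintro ⟨x, z⟩ h1
    obtain ⟨L, R, k1⟩ := (mem_asg M he).1 h1
    clear h1
    simp only [Prod.mk.injEq] at k1
    obtain ⟨rfl, rfl⟩ := k1
    exact ⟨Pt.l (L.cons a), (mem_asg M he).2 ⟨L, rfl⟩, (mem_asg M he).2 ⟨L.cons a, R, rfl⟩⟩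
  · rintro ⟨x, z⟩ h1
    obtain ⟨L, R, k1⟩ := (mem_asg M he).1 h1
    clear h1
    simp only [Prod.mk.injEq] at k1
    obtain ⟨rfl, rfl⟩ := k1
    exact ⟨Pt.r (R.cons a), (mem_asg M he).2 ⟨L, R.cons a, rfl⟩, (mem_asg M he).2 ⟨R, rfl⟩⟩
  · rintro ⟨x, z⟩ ⟨y, h1, h2⟩
    have k1 := (mem_asg M he).1 h1
    obtain ⟨L, k2⟩ := (mem_asg M he).1 h2
    clear h1 h2
    simp only [interp, Set.mem_ofPred_eq, Prod.mk.injEq] at k1 k2
    obtain ⟨rfl, rfl⟩ := k1
    obtain ⟨h3, rfl⟩ := k2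
    simp only [Pt.l.injEq] at h3
    subst h3
    refine (mem_asg M he).2 ?_
    show (_, _) = (_, _)
    rw [ListBlank.cons_mk, ← mk_nil_eq]
  · rintro ⟨x, z⟩ ⟨y, h1, h2⟩
    obtain ⟨R, k1⟩ := (mem_asg M he).1 h1
    have k2 := (mem_asg M he).1 h2
    clear h1 h2
    simp only [interp, Set.mem_ofPred_eq, Prod.mk.injEq] at k1 k2
    obtain ⟨rfl, rfl⟩ := k1
    obtain ⟨h3, rfl⟩ := k2
    simp only [Pt.r.injEq] at h3
    subst h3
    refine (mem_asg M he).2 ?_
    show (_, _) = (_, _)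
    rw [ListBlank.cons_mk, ← mk_nil_eq]

theorem wordR_sem (he : Function.Injective e) (r : List Γ) {x y : Pt.{u} Γ} :
    (x, y) ∈ val Set.univ (asg e M) (wordR e r) → x = Pt.r (ListBlank.mk r) := by
  induction r generalizing x y with
  | nil =>
    intro h
    have h := (mem_asg M he).1 h
    simp only [interp, Set.mem_ofPred_eq, Prod.mk.injEq] at h
    exact h.1
  | cons a r ih =>
    rintro ⟨w, h1, h2⟩
    have h3 := ih h2
    obtain ⟨R, h1⟩ := (mem_asg M he).1 h1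
    simp only [Prod.mk.injEq] at h1
    obtain ⟨rfl, rfl⟩ := h1
    simp only [Pt.r.injEq] at h3
    subst h3
    rw [ListBlank.cons_mk]

theorem halts_of_entails [Finite Γ] [Finite Λ] (he : Function.Injective e) (h0 : e .z = 0)
    (r : List Γ) (H : Entails.{u} (axList e M) (baseTerm e) (cfgTerm e default [] r)) :
    Halts M default (ListBlank.mk []) (ListBlank.mk r) := by
  have h := H (Pt.{u} Γ) Set.univ (fun _ _ _ _ _ => trivial) (asg e M) (fun _ => Set.subset_univ _)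
    (asg_zero M he h0) (model_ax M he)
  have h1 : ((Pt.s, Pt.e) : Pt.{u} Γ × Pt.{u} Γ) ∈ val Set.univ (asg e M) (baseTerm e) :=
    ⟨Pt.l (ListBlank.mk []), (mem_asg M he).2 rfl, Pt.r (ListBlank.mk []),
      (mem_asg M he).2 ⟨_, _, rfl⟩, (mem_asg M he).2 rfl⟩
  obtain ⟨y, h2, y1, h3, h4⟩ := h h1
  have h2 := (mem_asg M he).1 h2
  obtain ⟨L, R, h3, hh⟩ := (mem_asg M he).1 h3
  have h5 := wordR_sem M he r h4
  simp only [interp, Set.mem_ofPred_eq, Prod.mk.injEq, true_and] at h2 h3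
  obtain ⟨h6, h7⟩ := h3
  rw [h2] at h6
  rw [h5] at h7
  simp only [Pt.l.injEq] at h6
  simp only [Pt.r.injEq] at h7
  rw [h6, h7]
  exact hh

theorem entails_of_halts [Finite Γ] [Finite Λ] (r : List Γ)
    (h : Halts M default (ListBlank.mk []) (ListBlank.mk r)) :
    Entails.{u} (axList e M) (baseTerm e) (cfgTerm e default [] r) := by
  intro X top _ a _ _ hax
  obtain ⟨c', hc'⟩ := Part.dom_iff_mem.1 h
  obtain ⟨h1, h2⟩ := StateTransition.mem_eval.1 hc'
  exact sound_aux e M hax h1 h2 [] r rfl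

theorem tm0_eval_dom (r : List Γ) :
    (TM0.eval M r).Dom ↔ Halts M default (ListBlank.mk []) (ListBlank.mk r) := Iff.rfl

end

end Pool.Agent.Work.MP_86fe4b_lc
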