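import Mathlib.Computability.Halting
import Mathlib.Tactic

/-!
# Representable implication semigroups: basic definitions
-/

namespace Pool.Agent.Work.MP_86fe4b_lc

universe u v

/-- Relative implication `a → b = (⊤ \ a) ∪ b` on subsets of a relation `top`. -/
def relImp {X : Type u} (top a b : Set (X × X)) : Set (X × X) := (top \ a) ∪ b

/-- Composition `a ; b` of binary relations. -/
def relComp {X : Type u} (a b : Set (X × X)) : Set (X × X) :=
  {p | ∃ y, (p.1, y) ∈ a ∧ (y, p.2) ∈ b}

/-- Transitivity of a binary relation given as a set of pairs. -/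
def IsTransRel {X : Type u} (top : Set (X × X)) : Prop :=
  ∀ x y z, (x, y) ∈ top → (y, z) ∈ top → (x, z) ∈ top

/-- `(S, imp, comp)` is a representable implication semigroup: it embeds into
`(℘(top), →, ;)` for some set `X` and some transitive relation `top` on `X`. -/
def IsRepresentable {S : Type v} (imp comp : S → S → S) : Prop :=
  ∃ (X : Type u) (top : Set (X × X)), IsTransRel top ∧
    ∃ h : S → Set (X × X), Function.Injective h ∧ (∀ s, h s ⊆ top) ∧
      (∀ s t, h (imp s t) = relImp top (h s) (h t)) ∧
      (∀ s t, h (comp s t) = relComp (h s) (h t))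

/-- Terms in the signature `{→, ;}` over the variables `x_0, x_1, ...`. -/
inductive Term
  | var : ℕ → Term
  | imp : Term → Term → Term
  | comp : Term → Term → Term

/-- Value of a term in an algebra `(S, imp, comp)` under an assignment. -/
def Term.eval {S : Type v} (imp comp : S → S → S) (a : ℕ → S) : Term → S
  | .var n => a n
  | .imp s t => imp (s.eval imp comp a) (t.eval imp comp a)
  | .comp s t => comp (s.eval imp comp a) (t.eval imp comp a)

/-- The equation `s ≈ t` is valid in every representable implication semigroup. -/
def ValidEq (s t : Term) : Prop :=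
  ∀ (S : Type v) (imp comp : S → S → S), IsRepresentable.{u, v} imp comp →
    ∀ a : ℕ → S, s.eval imp comp a = t.eval imp comp a

/-- Gödel numbering of terms. -/
def Term.code : Term → ℕ
  | .var n => 3 * n
  | .imp s t => 3 * Nat.pair s.code t.code + 1
  | .comp s t => 3 * Nat.pair s.code t.code + 2

/-- Decoding. -/
def Term.ofCode : ℕ → Term
  | n =>
    if n % 3 = 0 then .var (n / 3)
    else
      if h : n = 0 then .var 0 else
      have h1 : (n / 3).unpair.1 < n :=
        lt_of_le_of_lt (Nat.unpair_left_le _) (Nat.div_lt_self (Nat.pos_of_ne_zero h) (by norm_num))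
      have h2 : (n / 3).unpair.2 < n :=
        lt_of_le_of_lt (Nat.unpair_right_le _) (Nat.div_lt_self (Nat.pos_of_ne_zero h) (by norm_num))
      if n % 3 = 1 then .imp (Term.ofCode (n / 3).unpair.1) (Term.ofCode (n / 3).unpair.2)
      else .comp (Term.ofCode (n / 3).unpair.1) (Term.ofCode (n / 3).unpair.2)

theorem Term.ofCode_code (t : Term) : Term.ofCode t.code = t := by
  induction t with
  | var n =>
    rw [Term.code, Term.ofCode]
    have h1 : 3 * n % 3 = 0 := by omega
    have h2 : 3 * n / 3 = n := by omega
    rw [if_pos h1, h2]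
  | imp s t ihs iht =>
    rw [Term.code, Term.ofCode]
    have h1 : ¬ (3 * Nat.pair s.code t.code + 1) % 3 = 0 := by omega
    have h0 : ¬ (3 * Nat.pair s.code t.code + 1) = 0 := by omega
    have h2 : (3 * Nat.pair s.code t.code + 1) / 3 = Nat.pair s.code t.code := by omega
    have h3 : (3 * Nat.pair s.code t.code + 1) % 3 = 1 := by omega
    rw [if_neg h1, dif_neg h0]
    simp only [if_pos h3, h2, Nat.unpair_pair, ihs, iht]
  | comp s t ihs iht =>
    rw [Term.code, Term.ofCode]
    have h1 : ¬ (3 * Nat.pair s.code t.code + 2) % 3 = 0 := by omega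
    have h0 : ¬ (3 * Nat.pair s.code t.code + 2) = 0 := by omega
    have h2 : (3 * Nat.pair s.code t.code + 2) / 3 = Nat.pair s.code t.code := by omega
    have h3 : ¬ (3 * Nat.pair s.code t.code + 2) % 3 = 1 := by omega
    rw [if_neg h1, dif_neg h0]
    simp only [if_neg h3, h2, Nat.unpair_pair, ihs, iht]

theorem Term.code_ofCode (n : ℕ) : (Term.ofCode n).code = n := by
  induction n using Nat.strong_induction_on with
  | _ n ih =>
    rw [Term.ofCode]
    by_cases h0 : n % 3 = 0
    · rw [if_pos h0, Term.code]; omega
    · have hn : ¬ n = 0 := by rintro rfl; exact h0 rfl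
      have h1 : (n / 3).unpair.1 < n :=
        lt_of_le_of_lt (Nat.unpair_left_le _) (Nat.div_lt_self (Nat.pos_of_ne_zero hn) (by norm_num))
      have h2 : (n / 3).unpair.2 < n :=
        lt_of_le_of_lt (Nat.unpair_right_le _) (Nat.div_lt_self (Nat.pos_of_ne_zero hn) (by norm_num))
      rw [if_neg h0, dif_neg hn]
      by_cases h3 : n % 3 = 1
      · simp only [if_pos h3, Term.code, ih _ h1, ih _ h2, Nat.pair_unpair]; omega
      · simp only [if_neg h3, Term.code, ih _ h1, ih _ h2, Nat.pair_unpair]; omega

/-- The Gödel numbering is a bijection between terms and natural numbers. -/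
def Term.equivNat : Term ≃ ℕ where
  toFun := Term.code
  invFun := Term.ofCode
  left_inv := Term.ofCode_code
  right_inv := Term.code_ofCode

/-- Terms are encoded by the Gödel numbering `Term.code`; through Mathlib's
`Primcodable.ofDenumerable` this is the coding used by `ComputablePred`. -/
instance instDenumerableTerm : Denumerable Term := Denumerable.mk' Term.equivNat

theorem Term.encode_eq (t : Term) : Encodable.encode t = t.code := rfl

end Pool.Agent.Work.MP_86fe4b_lc
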