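import Pool.Agent.Work.MP_86fe4b_lc.Counter

/-!
# Undecidability of the equational theory
-/

open Turing

namespace Pool.Agent.Work.MP_86fe4b_lc

universe u v

section bridge

variable {X : Type u} (top : Set (X × X)) (a : ℕ → Set (X × X))

/-- equality of values as a setoid on terms -/
def termSetoid : Setoid Term := Setoid.ker (val top a)

/-- the subalgebra generated by an assignment, realised as a quotient of the term algebra -/
abbrev GenAlg : Type v := ULift.{v} (Quotient (termSetoid top a))

/-- implication on the generated algebra -/
def genImp (x y : GenAlg.{u, v} top a) : GenAlg.{u, v} top a :=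
  ⟨Quotient.map₂ Term.imp (by
    intro s s' hs t t' ht
    show val top a _ = val top a _
    have hs : val top a s = val top a s' := hs
    have ht : val top a t = val top a t' := ht
    show relImp top (val top a s) (val top a t) = relImp top (val top a s') (val top a t')
    rw [hs, ht]) x.down y.down⟩

/-- composition on the generated algebra -/
def genComp (x y : GenAlg.{u, v} top a) : GenAlg.{u, v} top a :=
  ⟨Quotient.map₂ Term.comp (by
    intro s s' hs t t' ht
    show val top a _ = val top a _
    have hs : val top a s = val top a s' := hs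
    have ht : val top a t = val top a t' := ht
    show relComp (val top a s) (val top a t) = relComp (val top a s') (val top a t')
    rw [hs, ht]) x.down y.down⟩

/-- class of a term -/
def genMk (t : Term) : GenAlg.{u, v} top a := ⟨Quotient.mk (termSetoid top a) t⟩

theorem gen_eval (t : Term) :
    t.eval (genImp.{u, v} top a) (genComp.{u, v} top a) (fun n => genMk top a (.var n)) =
      genMk top a t := by
  induction t with
  | var n => rfl
  | imp s t ihs iht => rw [Term.eval, ihs, iht]; rfl
  | comp s t ihs iht => rw [Term.eval, ihs, iht]; rfl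

theorem gen_representable (htr : IsTransRel top) (ha : ∀ n, a n ⊆ top) :
    IsRepresentable.{u, v} (genImp.{u, v} top a) (genComp.{u, v} top a) := by
  refine ⟨X, top, htr, fun x => Quotient.lift (val top a) (fun s t h => h) x.down, ?_, ?_, ?_, ?_⟩
  · rintro ⟨x⟩ ⟨y⟩ h
    congr 1
    induction x using Quotient.inductionOn with | _ s =>
    induction y using Quotient.inductionOn with | _ t =>
    exact Quotient.sound h
  · rintro ⟨x⟩
    induction x using Quotient.inductionOn with | _ s =>
    exact val_subset htr ha s
  · rintro ⟨x⟩ ⟨y⟩
    induction x using Quotient.inductionOn with | _ s =>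
    induction y using Quotient.inductionOn with | _ t =>
    rfl
  · rintro ⟨x⟩ ⟨y⟩
    induction x using Quotient.inductionOn with | _ s =>
    induction y using Quotient.inductionOn with | _ t =>
    rfl

end bridge

theorem hom_eval {S : Type v} {X : Type u} (top : Set (X × X)) (imp comp : S → S → S)
    (h : S → Set (X × X)) (h1 : ∀ s t, h (imp s t) = relImp top (h s) (h t))
    (h2 : ∀ s t, h (comp s t) = relComp (h s) (h t)) (a : ℕ → S) (t : Term) :
    h (t.eval imp comp a) = val top (fun n => h (a n)) t := by
  induction t with
  | var n => rfl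
  | imp s t ihs iht =>
    rw [Term.eval, h1, ihs, iht]; rfl
  | comp s t ihs iht =>
    rw [Term.eval, h2, ihs, iht]; rfl

/-- Validity in the class is validity in all full algebras `(℘(top), →, ;)`. -/
theorem validEq_iff (s t : Term) : ValidEq.{u, v} s t ↔
    ∀ (X : Type u) (top : Set (X × X)), IsTransRel top →
      ∀ a : ℕ → Set (X × X), (∀ n, a n ⊆ top) → val top a s = val top a t := by
  constructor
  · intro H X top htr a ha
    have h1 := H (GenAlg.{u, v} top a) (genImp top a) (genComp top a)
      (gen_representable top a htr ha) (fun n => genMk top a (.var n))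
    rw [gen_eval, gen_eval] at h1
    have h2 : Quotient.mk (termSetoid top a) s = Quotient.mk (termSetoid top a) t :=
      congrArg ULift.down h1
    exact Quotient.exact h2
  · rintro H S imp comp ⟨X, top, htr, h, hinj, hsub, h1, h2⟩ a
    apply hinj
    rw [hom_eval top imp comp h h1 h2, hom_eval top imp comp h h1 h2]
    exact H X top htr _ (fun n => hsub _)

/-- The equation attached to an input word of the machine. -/
theorem validEq_machine {Γ Λ : Type} [Inhabited Γ] [Inhabited Λ] [Finite Γ] [Finite Λ]
    (M : TM0.Machine Γ Λ) {e : Vr Γ Λ → ℕ} (he : Function.Injective e) (h0 : e .z = 0)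
    (r : List Γ) :
    ValidEq.{u, v} (encL (axList e M) (baseTerm e) (cfgTerm e default [] r)) Term.top ↔
      (TM0.eval M r).Dom := by
  rw [validEq_iff, ← entails_iff, tm0_eval_dom]
  exact ⟨halts_of_entails M he h0 r, entails_of_halts M r⟩

theorem primrec_imp : Primrec₂ Term.imp := by
  apply Primrec₂.encode_iff.1
  have h : Primrec (fun p : Term × Term =>
      3 * Nat.pair (Encodable.encode p.1) (Encodable.encode p.2) + 1) :=
    Primrec.succ.comp (Primrec.nat_mul.comp (Primrec.const 3)
      (Primrec₂.natPair.comp (Primrec.encode.comp Primrec.fst) (Primrec.encode.comp Primrec.snd)))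
  exact h

theorem primrec_comp : Primrec₂ Term.comp := by
  apply Primrec₂.encode_iff.1
  have h : Primrec (fun p : Term × Term =>
      3 * Nat.pair (Encodable.encode p.1) (Encodable.encode p.2) + 2) :=
    Primrec.succ.comp (Primrec.succ.comp (Primrec.nat_mul.comp (Primrec.const 3)
      (Primrec₂.natPair.comp (Primrec.encode.comp Primrec.fst) (Primrec.encode.comp Primrec.snd))))
  exact h

theorem primrec_wordR {Γ Λ : Type} (e : Vr Γ Λ → ℕ) (b : Γ) :
    Primrec (fun n : ℕ => wordR e (List.replicate n b)) := by
  have h : Primrec (fun n : ℕ => (n.rec (vt e .rm) (fun _ t => Term.comp (vt e (.R b)) t) : Term)) :=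
    Primrec.nat_rec₁ _ ((primrec_comp.comp (Primrec.const _) Primrec.snd).to₂)
  refine h.of_eq fun n => ?_
  induction n with
  | zero => rfl
  | succ n ih => rw [List.replicate_succ, wordR, ← ih]

theorem undecidable : ¬ ComputablePred (fun p : Term × Term => ValidEq.{u, v} p.1 p.2) := by
  intro H
  obtain ⟨Γ, Λ, _, _, _, _, M, a₀, a₁, hM⟩ := exists_machine
  obtain ⟨eΓ, hΓ⟩ := Countable.exists_injective_nat Γ
  obtain ⟨eΛ, hΛ⟩ := Countable.exists_injective_nat Λ
  have he := Vr.num_injective hΓ hΛ
  set e := Vr.num eΓ eΛ with hedef
  have h0 : e .z = 0 := rfl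
  apply hM
  have hF : Computable (fun n : ℕ =>
      ((encL (axList e M) (baseTerm e) (cfgTerm e default [] (a₀ :: List.replicate n a₁)),
        Term.top) : Term × Term)) := by
    apply Primrec.to_comp
    refine Primrec.pair ?_ (Primrec.const _)
    have h1 : Primrec (fun n : ℕ => cfgTerm e default [] (a₀ :: List.replicate n a₁)) := by
      have := primrec_comp.comp (Primrec.const (wordL e ([] : List Γ)))
        (primrec_comp.comp (Primrec.const (vt e (.Q default)))
          (primrec_comp.comp (Primrec.const (vt e (.R a₀))) (primrec_wordR e a₁)))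
      exact this
    have h2 : Primrec (fun n : ℕ => Term.imp (baseTerm e)
        (cfgTerm e default [] (a₀ :: List.replicate n a₁))) :=
      primrec_imp.comp (Primrec.const _) h1
    exact primrec_imp.comp (primrec_imp.comp (Primrec.const _) h2) h2
  obtain ⟨f, hf, hf'⟩ := ComputablePred.computable_iff.1 H
  refine ComputablePred.computable_iff.2 ⟨_, hf.comp hF, ?_⟩
  funext n
  have h3 := congrFun hf' (encL (axList e M) (baseTerm e)
    (cfgTerm e default [] (a₀ :: List.replicate n a₁)), Term.top)
  simp only at h3
  rw [← h3]
  exact propext (validEq_machine M he h0 _).symm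

end Pool.Agent.Work.MP_86fe4b_lc
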