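import Pool.Agent.Work.MP_86fe4b_lc.Defs

/-!
# From quasi-equations to equations: the variable `x_0` plays the role of the empty relation
-/

namespace Pool.Agent.Work.MP_86fe4b_lc

universe u v

namespace Term

/-- the top element -/
def top : Term := .imp (.var 0) (.var 0)

/-- complement relative to `x_0` -/
def neg (s : Term) : Term := .imp s (.var 0)

/-- union -/
def sup (s t : Term) : Term := .imp (.imp s t) t

/-- the two-sided ideal generated by a relation -/
def ideal (s : Term) : Term :=
  sup (sup s (.comp s top)) (sup (.comp top s) (.comp top (.comp s top)))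

/-- violation of the inequality `s ≤ t` -/
def viol (s t : Term) : Term := neg (.imp s t)

/-- the union of the ideals generated by `x_0` and by all violations of the listed inequalities -/
def bad : List (Term × Term) → Term
  | [] => ideal (.var 0)
  | p :: l => sup (ideal (viol p.1 p.2)) (bad l)

end Term

/-- value of a term in `(℘(top), →, ;)` -/
def val {X : Type u} (top : Set (X × X)) (a : ℕ → Set (X × X)) (t : Term) : Set (X × X) :=
  t.eval (relImp top) relComp a

section basic
variable {X : Type u} {top : Set (X × X)} {a : ℕ → Set (X × X)}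

theorem val_subset (htr : IsTransRel top) (ha : ∀ n, a n ⊆ top) (t : Term) : val top a t ⊆ top := by
  induction t with
  | var n => exact ha n
  | imp s t ihs iht =>
    rintro p (hp | hp)
    · exact hp.1
    · exact iht hp
  | comp s t ihs iht =>
    rintro ⟨x, z⟩ ⟨y, h1, h2⟩
    exact htr x y z (ihs h1) (iht h2)

theorem mem_imp {s t : Term} {p : X × X} :
    p ∈ val top a (.imp s t) ↔ (p ∈ top ∧ p ∉ val top a s) ∨ p ∈ val top a t := Iff.rfl

theorem mem_comp {s t : Term} {x z : X} :
    (x, z) ∈ val top a (.comp s t) ↔ ∃ y, (x, y) ∈ val top a s ∧ (y, z) ∈ val top a t := Iff.rfl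

theorem mem_top (ha : ∀ n, a n ⊆ top) {p : X × X} : p ∈ val top a Term.top ↔ p ∈ top := by
  rw [Term.top, mem_imp]
  constructor
  · rintro (h | h)
    · exact h.1
    · exact ha 0 h
  · intro h
    by_cases h0 : p ∈ val top a (.var 0)
    · exact Or.inr h0
    · exact Or.inl ⟨h, h0⟩

theorem mem_sup (htr : IsTransRel top) (ha : ∀ n, a n ⊆ top) {s t : Term} {p : X × X} :
    p ∈ val top a (Term.sup s t) ↔ p ∈ val top a s ∨ p ∈ val top a t := by
  rw [Term.sup, mem_imp, mem_imp]
  constructor
  · rintro (⟨h1, h2⟩ | h)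
    · by_cases hs : p ∈ val top a s
      · exact Or.inl hs
      · exact absurd (Or.inl ⟨h1, hs⟩) h2
    · exact Or.inr h
  · rintro (h | h)
    · by_cases ht : p ∈ val top a t
      · exact Or.inr ht
      · refine Or.inl ⟨val_subset htr ha s h, ?_⟩
        rintro (h' | h')
        · exact h'.2 h
        · exact ht h'
    · exact Or.inr h

/-- `q` lies in the interval between `p.1` and `p.2`. -/
def Between (top : Set (X × X)) (p q : X × X) : Prop :=
  q ∈ top ∧ ((p.1, q.1) ∈ top ∨ p.1 = q.1) ∧ ((q.2, p.2) ∈ top ∨ q.2 = p.2)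

theorem mem_ideal (htr : IsTransRel top) (ha : ∀ n, a n ⊆ top) {s : Term} {p : X × X} :
    p ∈ val top a (Term.ideal s) ↔ ∃ q, Between top p q ∧ q ∈ val top a s := by
  obtain ⟨x, z⟩ := p
  rw [Term.ideal, mem_sup htr ha, mem_sup htr ha, mem_sup htr ha]
  constructor
  · rintro ((h | h) | (h | h))
    · exact ⟨(x, z), ⟨val_subset htr ha s h, Or.inr rfl, Or.inr rfl⟩, h⟩
    · obtain ⟨y, h1, h2⟩ := h
      exact ⟨(x, y), ⟨val_subset htr ha s h1, Or.inr rfl, Or.inl ((mem_top ha).1 h2)⟩, h1⟩
    · obtain ⟨y, h1, h2⟩ := h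
      exact ⟨(y, z), ⟨val_subset htr ha s h2, Or.inl ((mem_top ha).1 h1), Or.inr rfl⟩, h2⟩
    · obtain ⟨y, h1, y', h2, h3⟩ := h
      exact ⟨(y, y'), ⟨val_subset htr ha s h2, Or.inl ((mem_top ha).1 h1),
        Or.inl ((mem_top ha).1 h3)⟩, h2⟩
  · rintro ⟨⟨y, y'⟩, ⟨h0, h1, h2⟩, h⟩
    rcases h1 with h1 | h1
    · rcases h2 with h2 | h2
      · exact Or.inr (Or.inr ⟨y, (mem_top ha).2 h1, y', h, (mem_top ha).2 h2⟩)
      · refine Or.inr (Or.inl ⟨y, (mem_top ha).2 h1, ?_⟩)
        simp only at h2
        rw [← h2]; exact h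
    · simp only at h1
      rcases h2 with h2 | h2
      · refine Or.inl (Or.inr ⟨y', ?_, (mem_top ha).2 h2⟩)
        rw [h1]; exact h
      · simp only at h2
        refine Or.inl (Or.inl ?_)
        rw [h1, ← h2]; exact h

theorem mem_bad (htr : IsTransRel top) (ha : ∀ n, a n ⊆ top) {l : List (Term × Term)}
    {p : X × X} :
    p ∈ val top a (Term.bad l) ↔ ∃ q, Between top p q ∧
      (q ∈ a 0 ∨ ∃ e ∈ l, q ∈ val top a (Term.viol e.1 e.2)) := by
  induction l with
  | nil =>
    rw [Term.bad, mem_ideal htr ha]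
    constructor
    · rintro ⟨q, h1, h2⟩
      exact ⟨q, h1, Or.inl h2⟩
    · rintro ⟨q, h1, h2 | ⟨e, he, h2⟩⟩
      · exact ⟨q, h1, h2⟩
      · simp at he
  | cons e l ih =>
    rw [Term.bad, mem_sup htr ha, mem_ideal htr ha, ih]
    constructor
    · rintro (⟨q, h1, h2⟩ | ⟨q, h1, h2⟩)
      · exact ⟨q, h1, Or.inr ⟨e, by simp, h2⟩⟩
      · refine ⟨q, h1, ?_⟩
        rcases h2 with h2 | ⟨e', he', h2⟩
        · exact Or.inl h2
        · exact Or.inr ⟨e', by simp [he'], h2⟩
    · rintro ⟨q, h1, h2 | ⟨e', he', h2⟩⟩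
      · exact Or.inr ⟨q, h1, Or.inl h2⟩
      · rcases List.mem_cons.1 he' with rfl | he'
        · exact Or.inl ⟨q, h1, h2⟩
        · exact Or.inr ⟨q, h1, Or.inr ⟨e', he', h2⟩⟩

end basic

section restrict
variable {X : Type u} (top : Set (X × X)) (a : ℕ → Set (X × X)) (p : X × X)

/-- the interval model -/
def topAt : Set (X × X) := {q | Between top p q}

/-- restriction of an assignment to the interval -/
def asgAt (n : ℕ) : Set (X × X) := a n ∩ topAt top p

variable {top a p}

theorem topAt_trans (htr : IsTransRel top) : IsTransRel (topAt top p) := by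
  rintro x y z ⟨h1, h2, _⟩ ⟨h4, _, h6⟩
  exact ⟨htr x y z h1 h4, h2, h6⟩

theorem val_asgAt (htr : IsTransRel top) (ha : ∀ n, a n ⊆ top) (t : Term) :
    val (topAt top p) (asgAt top a p) t = val top a t ∩ topAt top p := by
  induction t with
  | var n => rfl
  | imp s t ihs iht =>
    ext q
    rw [mem_imp, ihs, iht]
    constructor
    · rintro (⟨h1, h2⟩ | ⟨h1, h2⟩)
      · exact ⟨Or.inl ⟨h1.1, fun h => h2 ⟨h, h1⟩⟩, h1⟩
      · exact ⟨Or.inr h1, h2⟩
    · rintro ⟨h1 | h1, h2⟩
      · exact Or.inl ⟨h2, fun h => h1.2 h.1⟩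
      · exact Or.inr ⟨h1, h2⟩
  | comp s t ihs iht =>
    ext ⟨x, z⟩
    rw [mem_comp, ihs, iht]
    constructor
    · rintro ⟨y, ⟨h1, h2⟩, ⟨h3, h4⟩⟩
      exact ⟨⟨y, h1, h3⟩, topAt_trans htr x y z h2 h4⟩
    · rintro ⟨⟨y, h1, h3⟩, h2⟩
      have hs := val_subset htr ha s h1
      have ht := val_subset htr ha t h3
      refine ⟨y, ⟨h1, hs, h2.2.1, ?_⟩, ⟨h3, ht, ?_, h2.2.2⟩⟩
      · rcases h2.2.2 with h | h
        · exact Or.inl (htr _ _ _ ht h)
        · simp only at h
          exact Or.inl (h ▸ ht)
      · rcases h2.2.1 with h | h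
        · exact Or.inl (htr _ _ _ h hs)
        · simp only at h
          exact Or.inl (h ▸ hs)

end restrict

/-- The quasi-inequality `x_0 = ∅, axs ⊢ l ≤ r` in full relation structures. -/
def Entails (axs : List (Term × Term)) (l r : Term) : Prop :=
  ∀ (X : Type u) (top : Set (X × X)), IsTransRel top → ∀ a : ℕ → Set (X × X), (∀ n, a n ⊆ top) →
    a 0 = ∅ → (∀ e ∈ axs, val top a e.1 ⊆ val top a e.2) → val top a l ⊆ val top a r

/-- The equation in the pure `{→, ;}` signature encoding the quasi-inequality. -/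
def encL (axs : List (Term × Term)) (l r : Term) : Term := Term.sup (Term.bad axs) (.imp l r)

theorem entails_iff (axs : List (Term × Term)) (l r : Term) :
    Entails.{u} axs l r ↔ ∀ (X : Type u) (top : Set (X × X)), IsTransRel top →
      ∀ a : ℕ → Set (X × X), (∀ n, a n ⊆ top) →
        val top a (encL axs l r) = val top a Term.top := by
  constructor
  · intro H X top htr a ha
    ext p
    rw [mem_top ha]
    refine ⟨fun h => val_subset htr ha _ h, fun hp => ?_⟩
    rw [encL, mem_sup htr ha]
    by_cases hb : p ∈ val top a (Term.bad axs)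
    · exact Or.inl hb
    · right
      rw [mem_bad htr ha] at hb
      have hb1 : ∀ q, Between top p q → q ∉ a 0 := fun q h1 h2 => hb ⟨q, h1, Or.inl h2⟩
      have hb2 : ∀ q, Between top p q → ∀ e ∈ axs, q ∉ val top a (Term.viol e.1 e.2) :=
        fun q h1 e he h2 => hb ⟨q, h1, Or.inr ⟨e, he, h2⟩⟩
      have ha' : ∀ n, asgAt top a p n ⊆ topAt top p := fun n q hq => hq.2
      have key := H X (topAt top p) (topAt_trans htr) (asgAt top a p) ha'
        (by
          ext q
          simp only [Set.mem_empty_iff_false, iff_false]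
          rintro ⟨h1, h2⟩
          exact hb1 q h2 h1)
        (by
          intro e he q hq
          rw [val_asgAt htr ha] at hq ⊢
          refine ⟨?_, hq.2⟩
          by_contra hcon
          apply hb2 q hq.2 e he
          rw [Term.viol, Term.neg, mem_imp]
          refine Or.inl ⟨hq.2.1, ?_⟩
          rintro (h | h)
          · exact h.2 hq.1
          · exact hcon h)
      have hpp : p ∈ topAt top p := ⟨hp, Or.inr rfl, Or.inr rfl⟩
      rw [mem_imp]
      by_cases hl : p ∈ val top a l
      · right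
        have h1 : p ∈ val (topAt top p) (asgAt top a p) l := by
          rw [val_asgAt htr ha]; exact ⟨hl, hpp⟩
        have h2 := key h1
        rw [val_asgAt htr ha] at h2
        exact h2.1
      · exact Or.inl ⟨hp, hl⟩
  · intro H X top htr a ha h0 hax p hp
    have hpt : p ∈ top := val_subset htr ha l hp
    have h1 : p ∈ val top a (encL axs l r) := by
      rw [H X top htr a ha, mem_top ha]; exact hpt
    rw [encL, mem_sup htr ha] at h1
    rcases h1 with h1 | h1
    · exfalso
      rw [mem_bad htr ha] at h1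
      obtain ⟨q, _, h2 | ⟨e, he, h2⟩⟩ := h1
      · rw [h0] at h2; exact h2
      · rw [Term.viol, Term.neg, mem_imp] at h2
        rcases h2 with ⟨h2, h3⟩ | h2
        · apply h3
          rw [mem_imp]
          by_cases h4 : q ∈ val top a e.1
          · exact Or.inr (hax e he h4)
          · exact Or.inl ⟨h2, h4⟩
        · have : q ∈ a 0 := h2
          rw [h0] at this; exact this
    · rw [mem_imp] at h1
      rcases h1 with h1 | h1
      · exact absurd hp h1.2
      · exact h1

end Pool.Agent.Work.MP_86fe4b_lc
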