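import Mathlib.Computability.TuringMachine.ToPartrec
import Mathlib.Computability.TuringMachine.StackTuringMachine
import Mathlib.Computability.TuringMachine.PostTuringMachine
import Mathlib.Computability.Halting
import Mathlib.Computability.PartrecBasis
import Mathlib.Tactic

/-!
# A fixed finite Turing machine whose halting problem on unary inputs is undecidable
-/

open Turing

namespace Pool.Agent.Work.MP_86fe4b_lc

open Nat.Partrec (Code)

/-- the partial function used : decode the number of binary digits as a program and run it on 0. -/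
noncomputable def fPart : ℕ →. ℕ := fun m =>
  (Nat.rfind (fun k => Part.some (decide (m < 2 ^ k)))).bind
    (fun n => Nat.Partrec.Code.eval (Denumerable.ofNat Code n) 0)

theorem primrec_two_pow : Primrec (fun k : ℕ => 2 ^ k) := by
  have h : Primrec (fun k : ℕ => (k.rec (1 : ℕ) (fun _ r => 2 * r) : ℕ)) :=
    Primrec.nat_rec₁ 1 ((Primrec.nat_mul.comp (Primrec.const 2) Primrec.snd).to₂)
  refine h.of_eq ?_
  intro k
  induction k with
  | zero => rfl
  | succ k ih =>
    show 2 * _ = _
    rw [ih, pow_succ, mul_comm]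

theorem partrec_fPart : Partrec fPart := by
  unfold fPart
  refine Partrec.bind ?_ ?_
  · refine Partrec.rfind ?_
    have h : Primrec₂ (fun (m k : ℕ) => decide (m < 2 ^ k)) := by
      have := (Primrec.nat_lt.comp (f := fun p : ℕ × ℕ => p.1) (g := fun p : ℕ × ℕ => 2 ^ p.2)
        Primrec.fst (primrec_two_pow.comp Primrec.snd)).decide
      exact this
    exact h.to_comp.partrec₂
  · exact (Nat.Partrec.Code.eval_part.comp ((Computable.ofNat Code).comp Computable.snd)
      (Computable.const 0)).to₂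

theorem fPart_unary (n : ℕ) :
    (fPart (2 ^ n - 1)).Dom ↔ (Nat.Partrec.Code.eval (Denumerable.ofNat Code n) 0).Dom := by
  have h : (Nat.rfind (fun k => Part.some (decide (2 ^ n - 1 < 2 ^ k)))) = Part.some n := by
    refine Part.eq_some_iff.2 (Nat.mem_rfind.2 ⟨?_, ?_⟩)
    · have : 2 ^ n - 1 < 2 ^ n := Nat.sub_lt (by positivity) one_pos
      simp
    · intro m hm
      have : 2 ^ m ≤ 2 ^ n - 1 := Nat.le_sub_one_of_lt (Nat.pow_lt_pow_right (by norm_num) hm)
      simp [this]
  unfold fPart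
  rw [h, Part.bind_some]

theorem exists_code_unary : ∃ c : ToPartrec.Code,
    ¬ ComputablePred (fun n : ℕ => (c.eval [2 ^ n - 1]).Dom) := by
  obtain ⟨c, hc⟩ := ToPartrec.Code.exists_code
    (Nat.Partrec'.part_iff₁.2 (partrec_fPart))
  refine ⟨c, fun h => ?_⟩
  have h1 : ∀ n : ℕ, (c.eval [2 ^ n - 1]).Dom ↔
      (Nat.Partrec.Code.eval (Denumerable.ofNat Code n) 0).Dom := by
    intro n
    have := hc (List.Vector.cons (2 ^ n - 1) List.Vector.nil)
    have h2 : (List.Vector.cons (2 ^ n - 1) List.Vector.nil : List.Vector ℕ 1).1 = [2 ^ n - 1] := rfl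
    rw [h2] at this
    rw [this]
    rw [← fPart_unary]
    rfl
  have h3 : ComputablePred fun n : ℕ => (Nat.Partrec.Code.eval (Denumerable.ofNat Code n) 0).Dom :=
    h.of_eq h1
  apply ComputablePred.halting_problem 0
  obtain ⟨f, hf, hf'⟩ := ComputablePred.computable_iff.1 h3
  refine ComputablePred.computable_iff.2 ⟨fun c => f (Encodable.encode c), hf.comp Computable.encode, ?_⟩
  funext c
  have := congrFun hf' (Encodable.encode c)
  simp only [Denumerable.ofNat_encode] at this
  exact this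


open PartrecToTM2

instance : Fintype K' :=
  ⟨{K'.main, K'.rev, K'.aux, K'.stack}, by intro x; cases x <;> simp⟩

theorem trPosNum_bit1s : ∀ n : ℕ, ∃ p : PosNum, ((2 ^ (n + 1) - 1 : ℕ) : Num) = Num.pos p ∧
    trPosNum p = List.replicate (n + 1) Γ'.bit1
  | 0 => ⟨PosNum.one, rfl, rfl⟩
  | n + 1 => by
    obtain ⟨p, hp, hp'⟩ := trPosNum_bit1s n
    refine ⟨PosNum.bit1 p, ?_, ?_⟩
    · have h : (2 ^ (n + 1 + 1) - 1 : ℕ) = 2 * (2 ^ (n + 1) - 1) + 1 := by
        have : 1 ≤ 2 ^ (n + 1) := Nat.one_le_two_pow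
        rw [pow_succ 2 (n + 1)]; omega
      apply Num.to_nat_inj.1
      have h2 : ((Num.pos p : Num) : ℕ) = 2 ^ (n + 1) - 1 := by
        rw [← hp]; exact Num.to_of_nat _
      rw [Num.to_of_nat, h, ← h2]
      simp [Num.cast_pos, PosNum.cast_bit1, two_mul]
    · rw [trPosNum, hp', ← List.replicate_succ]

theorem trNat_unary (n : ℕ) : trNat (2 ^ n - 1) = List.replicate n Γ'.bit1 := by
  cases n with
  | zero => simp
  | succ n =>
    obtain ⟨p, hp, hp'⟩ := trPosNum_bit1s n
    rw [trNat, hp, trNum, hp']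

theorem trList_unary (n : ℕ) :
    trList [2 ^ n - 1] = List.replicate n Γ'.bit1 ++ [Γ'.cons] := by
  rw [trList, trNat_unary, trList]

section
variable (c : ToPartrec.Code)

theorem tm2_dom (n : ℕ) :
    (letI : Inhabited Λ' := ⟨trNormal c Cont'.halt⟩;
      (TM2.eval (Γ := fun _ : K' => Γ') tr K'.main (trList [2 ^ n - 1])).Dom) ↔
      (c.eval [2 ^ n - 1]).Dom := by
  let _ : Inhabited Λ' := ⟨trNormal c Cont'.halt⟩
  have h : (TM2.init K'.main (trList [2 ^ n - 1]) : TM2.Cfg (fun _ : K' => Γ') Λ' (Option Γ')) =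
      PartrecToTM2.init c [2 ^ n - 1] := by
    unfold TM2.init PartrecToTM2.init
    congr 1
    funext k
    cases k <;> rfl
  unfold TM2.eval
  rw [h]
  have h2 := tr_eval c [2 ^ n - 1]
  show (StateTransition.eval (TM2.step tr) (PartrecToTM2.init c [2 ^ n - 1])).Dom ↔ _
  rw [h2]
  rfl

end

theorem trInit_unary (n : ℕ) :
    TM2to1.trInit (Γ := fun _ : K' => Γ') K'.main (trList [2 ^ n - 1]) =
      ((true, Function.update (fun _ => none) K'.main (some Γ'.cons)) :: List.replicate n
        ((false, Function.update (fun _ => none) K'.main (some Γ'.bit1)))) := by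
  rw [trList_unary]
  unfold TM2to1.trInit
  simp only [List.reverse_append, List.reverse_replicate, List.reverse_cons, List.reverse_nil,
    List.nil_append, List.cons_append]
  exact congrArg (List.cons _) (List.map_replicate (f := fun a : Γ' =>
    ((false, Function.update (fun _ => none) K'.main (some a)) : Bool × (K' → Option Γ'))))

theorem exists_machine : ∃ (Γ Λ : Type) (_ : Inhabited Γ) (_ : Inhabited Λ) (_ : Finite Γ)
    (_ : Finite Λ) (M : TM0.Machine Γ Λ) (a₀ a₁ : Γ),
    ¬ ComputablePred (fun n : ℕ => (TM0.eval M (a₀ :: List.replicate n a₁)).Dom) := by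
  classical
  obtain ⟨c, hc⟩ := exists_code_unary
  let _ : Inhabited Λ' := ⟨trNormal c Cont'.halt⟩
  let M1 := TM2to1.tr (K := K') (Γ := fun _ => Γ') (Λ := Λ') (σ := Option Γ') tr
  let M0 := TM1to0.tr M1
  let a₀ : TM2to1.Γ' K' (fun _ => Γ') :=
    (true, Function.update (fun _ => none) K'.main (some Γ'.cons))
  let a₁ : TM2to1.Γ' K' (fun _ => Γ') :=
    (false, Function.update (fun _ => none) K'.main (some Γ'.bit1))
  have hsupp2 : TM2.Supports tr (codeSupp c Cont'.halt) := tr_supports c Cont'.halt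
  have hsupp1 := TM2to1.tr_supports tr hsupp2
  have hsupp0 := TM1to0.tr_supports M1 hsupp1
  set S := TM1to0.trStmts M1 (TM2to1.trSupp tr (codeSupp c Cont'.halt)) with hS
  have hdef : (default : TM1to0.Λ' M1) ∈ S := hsupp0.1
  let _ : Inhabited {x // x ∈ S} := ⟨⟨default, hdef⟩⟩
  let g1 : PointedMap (TM1to0.Λ' M1) {x // x ∈ S} :=
    ⟨fun q => if h : q ∈ S then ⟨q, h⟩ else default, by simp [hdef]; rfl⟩
  let f1 : PointedMap (TM2to1.Γ' K' (fun _ => Γ')) (TM2to1.Γ' K' (fun _ => Γ')) := ⟨id, rfl⟩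
  let N := TM0.Machine.map M0 f1 f1 g1 Subtype.val
  refine ⟨TM2to1.Γ' K' (fun _ => Γ'), {x // x ∈ S}, inferInstance, inferInstance, inferInstance,
    inferInstance, N, a₀, a₁, fun h => hc ?_⟩
  refine h.of_eq fun n => ?_
  have e1 : (TM0.eval M0 (a₀ :: List.replicate n a₁)).Dom ↔ (c.eval [2 ^ n - 1]).Dom := by
    rw [TM1to0.tr_eval, ← tm2_dom]
    have e0 := TM2to1.tr_eval_dom (Γ := fun _ : K' => Γ') tr K'.main (trList [2 ^ n - 1])
    rw [trInit_unary] at e0
    exact e0
  rw [← e1]
  have hr := TM0.Machine.map_respects M0 f1 f1 g1 Subtype.val hsupp0 (fun x => rfl)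
    (fun q hq => by
      have : q ∈ S := hq
      show ((if h : q ∈ S then (⟨q, h⟩ : {x // x ∈ S}) else default) : {x // x ∈ S}).1 = q
      rw [dif_pos this])
  have h3 := StateTransition.tr_eval_dom hr
    (a₁ := TM0.init (a₀ :: List.replicate n a₁)) ⟨hdef, rfl⟩
  have h4 : TM0.Cfg.map f1 g1 (TM0.init (a₀ :: List.replicate n a₁)) =
      TM0.init (a₀ :: List.replicate n a₁) := by
    rw [TM0.map_init]
    congr 1
    show List.map id _ = _
    simp
  rw [h4] at h3
  exact h3

end Pool.Agent.Work.MP_86fe4b_lc
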