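import Pool.Agent.Work.MP_86fe4b_lc.Local
import Pool.Agent.Work.MP_86fe4b_lc.Machine

/-!
# Simulating a finite Turing machine by inequalities between relations
-/

open Turing

namespace Pool.Agent.Work.MP_86fe4b_lc

universe u v

section
variable {Γ Λ : Type} [Inhabited Γ] [Inhabited Λ]

/-- Names of the relation variables. -/
inductive Vr (Γ Λ : Type)
  | z | lm | rm | mid
  | L (a : Γ) | R (a : Γ) | Q (q : Λ)

/-- Numbering of the variables. -/
def Vr.num (eΓ : Γ → ℕ) (eΛ : Λ → ℕ) : Vr Γ Λ → ℕ
  | .z => 0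
  | .lm => 1
  | .rm => 2
  | .mid => 3
  | .L a => 4 + 3 * eΓ a
  | .R a => 5 + 3 * eΓ a
  | .Q q => 6 + 3 * eΛ q

theorem Vr.num_injective {eΓ : Γ → ℕ} {eΛ : Λ → ℕ} (hΓ : Function.Injective eΓ)
    (hΛ : Function.Injective eΛ) : Function.Injective (Vr.num eΓ eΛ) := by
  intro x y h
  cases x <;> cases y <;> simp only [Vr.num] at h <;>
    first
    | rfl
    | omega
    | (congr 1; apply hΓ; omega)
    | (congr 1; apply hΛ; omega)

theorem mk_nil_eq : (ListBlank.mk [] : ListBlank Γ) = ListBlank.mk [default] :=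
  ListBlank.ext fun i => by
    cases i with
    | zero => rfl
    | succ i => simp [ListBlank.nth_mk]

theorem comp_intro {X : Type u} {top : Set (X × X)} {a : ℕ → Set (X × X)} {s t : Term} {x z : X}
    (y : X) (h1 : (x, y) ∈ val top a s) (h2 : (y, z) ∈ val top a t) :
    (x, z) ∈ val top a (.comp s t) := ⟨y, h1, h2⟩

variable (e : Vr Γ Λ → ℕ) (M : TM0.Machine Γ Λ)

/-- the term of a variable -/
def vt (x : Vr Γ Λ) : Term := .var (e x)

/-- The inequality attached to `(q, a, b)`. -/
def axOf (p : Λ × Γ × Γ) : Term × Term :=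
  match M p.1 p.2.1 with
  | none => (.comp (vt e .mid) (vt e (.R p.2.1)), .comp (vt e (.Q p.1)) (vt e (.R p.2.1)))
  | some (q', TM0.Stmt.write c) =>
      (.comp (vt e (.Q q')) (vt e (.R c)), .comp (vt e (.Q p.1)) (vt e (.R p.2.1)))
  | some (q', TM0.Stmt.move Dir.right) =>
      (.comp (vt e (.L p.2.1)) (vt e (.Q q')), .comp (vt e (.Q p.1)) (vt e (.R p.2.1)))
  | some (q', TM0.Stmt.move Dir.left) =>
      (.comp (vt e (.Q q')) (.comp (vt e (.R p.2.2)) (vt e (.R p.2.1))),
        .comp (vt e (.L p.2.2)) (.comp (vt e (.Q p.1)) (vt e (.R p.2.1))))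

/-- The finite list of inequalities. -/
noncomputable def axList [Finite Γ] [Finite Λ] : List (Term × Term) :=
  letI := Fintype.ofFinite Γ
  letI := Fintype.ofFinite Λ
  (Finset.univ : Finset (Λ × Γ × Γ)).toList.map (axOf e M) ++
  (Finset.univ : Finset Γ).toList.map (fun a => (vt e .mid, .comp (vt e (.L a)) (vt e .mid))) ++
  (Finset.univ : Finset Γ).toList.map (fun a => (vt e .mid, .comp (vt e .mid) (vt e (.R a)))) ++
  [(.comp (vt e .lm) (vt e (.L default)), vt e .lm),
   (.comp (vt e (.R default)) (vt e .rm), vt e .rm)]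

theorem mem_axList [Finite Γ] [Finite Λ] {x : Term × Term} : x ∈ axList e M ↔
    (∃ p, axOf e M p = x) ∨ (∃ a, (vt e .mid, .comp (vt e (.L a)) (vt e .mid)) = x) ∨
    (∃ a, (vt e .mid, .comp (vt e .mid) (vt e (.R a))) = x) ∨
    x = (.comp (vt e .lm) (vt e (.L default)), vt e .lm) ∨
    x = (.comp (vt e (.R default)) (vt e .rm), vt e .rm) := by
  unfold axList
  simp only [List.mem_append, List.mem_map, Finset.mem_toList, Finset.mem_univ, true_and,
    List.mem_cons, List.not_mem_nil, or_false, or_assoc]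

/-- left half of a configuration word -/
def wordL : List Γ → Term
  | [] => vt e .lm
  | a :: l => .comp (wordL l) (vt e (.L a))

/-- right half of a configuration word -/
def wordR : List Γ → Term
  | [] => vt e .rm
  | a :: l => .comp (vt e (.R a)) (wordR l)

/-- configuration word -/
def cfgTerm (q : Λ) (l r : List Γ) : Term :=
  .comp (wordL e l) (.comp (vt e (.Q q)) (wordR e r))

/-- the base word -/
def baseTerm : Term := .comp (vt e .lm) (.comp (vt e .mid) (vt e .rm))

section soundness

variable {X : Type u} {top : Set (X × X)} {a : ℕ → Set (X × X)}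

theorem mid_words [Finite Γ] [Finite Λ]
    (hax : ∀ x ∈ axList e M, val top a x.1 ⊆ val top a x.2) (l r : List Γ) :
    val top a (baseTerm e) ⊆ val top a (.comp (wordL e l) (.comp (vt e .mid) (wordR e r))) := by
  rintro ⟨x, z⟩ ⟨y, h1, y', h2, h3⟩
  have hl : ∀ l : List Γ, ∀ y2, (x, y) ∈ val top a (vt e .lm) → (y, y2) ∈ val top a (vt e .mid) →
      ∃ y1, (x, y1) ∈ val top a (wordL e l) ∧ (y1, y2) ∈ val top a (vt e .mid) := by
    intro l
    induction l with
    | nil => intro y2 h1 h2; exact ⟨y, h1, h2⟩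
    | cons b l ih =>
      intro y2 h1 h2
      obtain ⟨y1, h4, h5⟩ := ih y2 h1 h2
      have := hax _ ((mem_axList e M).2 (Or.inr (Or.inl ⟨b, rfl⟩))) h5
      obtain ⟨w, h6, h7⟩ := this
      exact ⟨w, ⟨y1, h4, h6⟩, h7⟩
  have hr : ∀ r : List Γ, ∀ y1, (y', z) ∈ val top a (vt e .rm) → (y1, y') ∈ val top a (vt e .mid) →
      ∃ y2, (y1, y2) ∈ val top a (vt e .mid) ∧ (y2, z) ∈ val top a (wordR e r) := by
    intro r
    induction r with
    | nil => intro y1 h1 h2; exact ⟨y', h2, h1⟩
    | cons b r ih =>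
      intro y1 h1 h2
      obtain ⟨y2, h4, h5⟩ := ih y1 h1 h2
      have := hax _ ((mem_axList e M).2 (Or.inr (Or.inr (Or.inl ⟨b, rfl⟩)))) h4
      obtain ⟨w, h6, h7⟩ := this
      exact ⟨w, h6, ⟨y2, h7, h5⟩⟩
  obtain ⟨y1, h4, h5⟩ := hl l y' h1 h2
  obtain ⟨y2, h6, h7⟩ := hr r y1 h3 h5
  exact ⟨y1, h4, y2, h6, h7⟩

theorem blankR [Finite Γ] [Finite Λ]
    (hax : ∀ x ∈ axList e M, val top a x.1 ⊆ val top a x.2) (q : Λ) (l : List Γ) :
    val top a (cfgTerm e q l [default]) ⊆ val top a (cfgTerm e q l []) := by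
  rintro ⟨x, z⟩ ⟨y, h1, y', h2, h3⟩
  exact ⟨y, h1, y', h2, hax _ ((mem_axList e M).2 (Or.inr (Or.inr (Or.inr (Or.inr rfl))))) h3⟩

theorem blankL [Finite Γ] [Finite Λ]
    (hax : ∀ x ∈ axList e M, val top a x.1 ⊆ val top a x.2) (q : Λ) (r : List Γ) :
    val top a (cfgTerm e q [default] r) ⊆ val top a (cfgTerm e q [] r) := by
  rintro ⟨x, z⟩ ⟨y, h1, y', h2, h3⟩
  exact ⟨y, hax _ ((mem_axList e M).2 (Or.inr (Or.inr (Or.inr (Or.inl rfl))))) h1, y', h2, h3⟩

theorem sound_aux [Finite Γ] [Finite Λ]
    (hax : ∀ x ∈ axList e M, val top a x.1 ⊆ val top a x.2) {c c' : TM0.Cfg Γ Λ}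
    (hc : StateTransition.Reaches (TM0.step M) c c') (hc' : TM0.step M c' = none) :
    ∀ l r : List Γ, c.Tape = Tape.mk' (ListBlank.mk l) (ListBlank.mk r) →
      val top a (baseTerm e) ⊆ val top a (cfgTerm e c.q l r) := by
  induction hc using Relation.ReflTransGen.head_induction_on with
  | refl =>
    -- halting configuration
    have key : ∀ l r b, c'.Tape = Tape.mk' (ListBlank.mk l) (ListBlank.mk (b :: r)) →
        val top a (baseTerm e) ⊆ val top a (cfgTerm e c'.q l (b :: r)) := by
      intro l r b hT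
      obtain ⟨q, T⟩ := c'
      simp only at hT
      subst hT
      have hM : M q b = none := by
        by_contra hcon
        obtain ⟨x, hx⟩ := Option.ne_none_iff_exists'.1 hcon
        rw [TM0.step] at hc'
        have h1 : (Tape.mk' (ListBlank.mk l) (ListBlank.mk (b :: r))).1 = b := by
          rw [Tape.mk'_head]; rfl
        rw [h1, hx] at hc'
        simp at hc'
      rintro ⟨x, z⟩ hp
      obtain ⟨y, h1, y1, h2, y2, h3, h4⟩ := mid_words e M hax l (b :: r) hp
      have hx : axOf e M (q, b, b) =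
          (.comp (vt e .mid) (vt e (.R b)), .comp (vt e (.Q q)) (vt e (.R b))) := by
        unfold axOf; simp only [hM]
      have := hax _ ((mem_axList e M).2 (Or.inl ⟨(q, b, b), hx⟩))
      obtain ⟨y3, h5, h6⟩ := this (comp_intro y1 h2 h3)
      exact ⟨y, h1, y3, h5, y2, h6, h4⟩
    intro l r hT
    cases r with
    | nil =>
      refine (key l [] default ?_).trans (blankR e M hax _ l)
      rw [hT, mk_nil_eq]
    | cons b r => exact key l r b hT
  | head hstep _ ih =>
    rename_i c₁ c₂ _
    have key : ∀ l r b, c₁.Tape = Tape.mk' (ListBlank.mk l) (ListBlank.mk (b :: r)) →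
        val top a (baseTerm e) ⊆ val top a (cfgTerm e c₁.q l (b :: r)) := by
      intro l r b hT
      obtain ⟨q, T⟩ := c₁
      simp only at hT
      subst hT
      have h1 : (Tape.mk' (ListBlank.mk l) (ListBlank.mk (b :: r))).1 = b := by
        rw [Tape.mk'_head]; rfl
      rw [TM0.step, h1] at hstep
      obtain ⟨⟨q', s⟩, hM, hs⟩ := Option.map_eq_some_iff.1 hstep
      simp only at hs
      cases s with
      | write c =>
        simp only at hs
        have hT' : c₂.Tape = Tape.mk' (ListBlank.mk l) (ListBlank.mk (c :: r)) := by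
          rw [← hs, ← ListBlank.cons_mk, Tape.write_mk']; rfl
        have hq' : c₂.q = q' := by rw [← hs]
        refine (ih l (c :: r) hT').trans ?_
        rw [hq']
        have hx : axOf e M (q, b, b) =
            (.comp (vt e (.Q q')) (vt e (.R c)), .comp (vt e (.Q q)) (vt e (.R b))) := by
          unfold axOf; simp only [hM]
        have h := hax _ ((mem_axList e M).2 (Or.inl ⟨(q, b, b), hx⟩))
        rintro ⟨x, z⟩ ⟨y, h1, y1, h2, y2, h3, h4⟩
        obtain ⟨y3, h5, h6⟩ := h (comp_intro y1 h2 h3)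
        exact ⟨y, h1, y3, h5, y2, h6, h4⟩
      | move d =>
        cases d with
        | right =>
          simp only at hs
          have hT' : c₂.Tape = Tape.mk' (ListBlank.mk (b :: l)) (ListBlank.mk r) := by
            rw [← hs, Tape.move_right_mk']; rfl
          have hq' : c₂.q = q' := by rw [← hs]
          refine (ih (b :: l) r hT').trans ?_
          rw [hq']
          have hx : axOf e M (q, b, b) =
              (.comp (vt e (.L b)) (vt e (.Q q')), .comp (vt e (.Q q)) (vt e (.R b))) := by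
            unfold axOf; simp only [hM]
          have h := hax _ ((mem_axList e M).2 (Or.inl ⟨(q, b, b), hx⟩))
          rintro ⟨x, z⟩ ⟨y, ⟨y0, h0, h1⟩, y1, h2, h3⟩
          obtain ⟨y3, h5, h6⟩ := h (comp_intro y h1 h2)
          exact ⟨y0, h0, y3, h5, y1, h6, h3⟩
        | left =>
          simp only at hs
          have key2 : ∀ l' c, ListBlank.mk l = ListBlank.mk (c :: l') →
              val top a (baseTerm e) ⊆ val top a (cfgTerm e q (c :: l') (b :: r)) := by
            intro l' c hl
            have hT' : c₂.Tape = Tape.mk' (ListBlank.mk l') (ListBlank.mk (c :: b :: r)) := by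
              rw [← hs, hl, Tape.move_left_mk']; rfl
            have hq' : c₂.q = q' := by rw [← hs]
            refine (ih l' (c :: b :: r) hT').trans ?_
            rw [hq']
            have hx : axOf e M (q, b, c) =
                (.comp (vt e (.Q q')) (.comp (vt e (.R c)) (vt e (.R b))),
                  .comp (vt e (.L c)) (.comp (vt e (.Q q)) (vt e (.R b)))) := by
              unfold axOf; simp only [hM]
            have h := hax _ ((mem_axList e M).2 (Or.inl ⟨(q, b, c), hx⟩))
            rintro ⟨x, z⟩ ⟨y, h1, y1, h2, y2, h3, y3, h4, h5⟩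
            obtain ⟨y4, h6, y5, h7, h8⟩ := h (comp_intro y1 h2 (comp_intro y2 h3 h4))
            exact ⟨y4, ⟨y, h1, h6⟩, y5, h7, y3, h8, h5⟩
          cases l with
          | nil =>
            refine (key2 [] default ?_).trans (blankL e M hax q (b :: r))
            exact mk_nil_eq
          | cons c l' => exact key2 l' c rfl
    intro l r hT
    cases r with
    | nil =>
      refine (key l [] default ?_).trans (blankR e M hax _ l)
      rw [hT, mk_nil_eq]
    | cons b r => exact key l r b hT

end soundness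

end

end Pool.Agent.Work.MP_86fe4b_lc
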